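import Pool.Agent.Helper741.Garside
import Pool.Agent.Helper741.Reduction
import Pool.Agent.TH107.Root

/-!
# Words along the cosets of a standard parabolic subgroup of a Coxeter group

`T` is a set of generators of a Coxeter group `W`. A word over the generators of `W` moves along the
cosets of the parabolic subgroup `W_T`; at the steps at which it does not move it writes a generator in
`T`. If the word is reduced then so is the word over `T`.
-/

set_option autoImplicit false

namespace Pool.Agent.R665.Art

open Pool.Agent.Helper741 Pool.Agent.TH107 CoxeterSystem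

variable {B : Type} [Fintype B] [DecidableEq B] (M : CoxeterMatrix B) (T : Set B) [Fintype T]

/-- the Coxeter system of the Coxeter group -/
abbrev cs : CoxeterSystem M M.Group := M.toCoxeterSystem

/-- the Coxeter system of the parabolic subgroup -/
abbrev ct : CoxeterSystem (subM M T) (subM M T).Group := (subM M T).toCoxeterSystem

omit [Fintype B] [DecidableEq B] [Fintype T] in
theorem jj_liftable : (subM M T).IsLiftable (fun t : T => (cs M).simple t.1) := by
  intro i i'
  exact (cs M).simple_mul_simple_pow i.1 i'.1

/-- the homomorphism of the Coxeter group of `T` to the Coxeter group -/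
noncomputable def jj : (subM M T).Group →* M.Group :=
  (ct M T).lift ⟨fun t => (cs M).simple t.1, jj_liftable M T⟩

omit [Fintype B] [DecidableEq B] [Fintype T] in
theorem jj_simple (t : T) : jj M T ((ct M T).simple t) = (cs M).simple t.1 :=
  (ct M T).lift_apply_simple (jj_liftable M T) t

open Classical in
/-- extension by zero -/
noncomputable def EE : (T → ℝ) →ₗ[ℝ] (B → ℝ) where
  toFun x b := if h : b ∈ T then x ⟨b, h⟩ else 0
  map_add' x y := by
    funext b
    by_cases h : b ∈ T
    · simp [h]
    · simp [h]
  map_smul' a x := by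
    funext b
    by_cases h : b ∈ T
    · simp [h]
    · simp [h]

omit [Fintype B] [Fintype T] in
theorem EE_ee (t : T) : EE T (ee t) = (ee t.1 : B → ℝ) := by
  classical
  funext b
  show (if h : b ∈ T then (ee t : T → ℝ) ⟨b, h⟩ else 0) = _
  by_cases h : b ∈ T
  · rw [dif_pos h]
    by_cases hb : b = t.1
    · subst hb
      simp [ee]
    · have h1 : (⟨b, h⟩ : T) ≠ t := fun h' => hb (congrArg Subtype.val h')
      simp [ee, hb, h1]
  · rw [dif_neg h]
    have hb : b ≠ t.1 := by
      rintro rfl
      exact h t.2
    simp [ee, hb]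

omit [Fintype B] [DecidableEq B] in
theorem EE_eq (x : T → ℝ) [DecidableEq B] : EE T x = ∑ t : T, x t • (ee t.1 : B → ℝ) := by
  have h1 : x = ∑ t : T, x t • (ee t : T → ℝ) := by
    funext t
    rw [Finset.sum_apply]
    simp [ee, Pi.single_apply]
  conv_lhs => rw [h1]
  rw [map_sum]
  refine Finset.sum_congr rfl fun t _ => ?_
  rw [map_smul, EE_ee]

theorem coroot_EE (t : T) (x : T → ℝ) : coroot M t.1 (EE T x) = coroot (subM M T) t x := by
  rw [EE_eq, map_sum]
  have h1 : x = ∑ t : T, x t • (ee t : T → ℝ) := by
    funext t
    rw [Finset.sum_apply]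
    simp [ee, Pi.single_apply]
  conv_rhs => rw [h1]
  rw [map_sum]
  refine Finset.sum_congr rfl fun t' _ => ?_
  rw [map_smul, map_smul, coroot_ee, coroot_ee]
  rfl

theorem geo_jj (u : (subM M T).Group) : ∀ x : T → ℝ,
    geo (cs M) (jj M T u) (EE T x) = EE T (geo (ct M T) u x) := by
  refine (ct M T).simple_induction (p := fun u => ∀ x : T → ℝ,
    geo (cs M) (jj M T u) (EE T x) = EE T (geo (ct M T) u x)) u ?_ ?_ ?_
  · intro t x
    rw [jj_simple, geo_simple, geo_simple, sg_apply, sg_apply, map_sub, map_smul, EE_ee,
      coroot_EE]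
  · intro x
    simp
  · intro u v hu hv x
    rw [map_mul, map_mul, Module.End.mul_apply, hv, hu, map_mul, Module.End.mul_apply]

/-- the element has minimal length in its coset -/
def Tred (v : M.Group) : Prop := ∀ t : T, 0 ≤ geo (cs M) v (ee t.1)

omit [Fintype T] in
theorem tred_one : Tred M T 1 := by
  intro t
  rw [map_one, Module.End.one_apply]
  exact ee_nonneg t.1

theorem geo_EE_nonneg {v : M.Group} (hv : Tred M T v) {x : T → ℝ} (hx : 0 ≤ x) :
    0 ≤ geo (cs M) v (EE T x) := by
  rw [EE_eq, map_sum]
  refine Finset.sum_nonneg fun t _ => ?_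
  rw [map_smul]
  exact smul_nonneg (hx t) (hv t)

omit [Fintype T] in
theorem exists_tred (v : M.Group) : ∃ (v' : M.Group) (u : (subM M T).Group),
    Tred M T v' ∧ v = v' * jj M T u := by
  induction hn : (cs M).length v using Nat.strong_induction_on generalizing v with
  | _ n ih =>
    by_cases h : Tred M T v
    · exact ⟨v, 1, h, by rw [map_one, mul_one]⟩
    · unfold Tred at h
      push Not at h
      obtain ⟨t, ht⟩ := h
      have h1 : (cs M).length (v * (cs M).simple t.1) < (cs M).length v := by
        rcases (cs M).length_mul_simple v t.1 with h1 | h1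
        · exact absurd ((geo_nonneg_iff (cs M) v t.1).2 (by omega)) ht
        · omega
      obtain ⟨v', u, h2, h3⟩ := ih _ (hn ▸ h1) (v * (cs M).simple t.1) rfl
      refine ⟨v', u * (ct M T).simple t, h2, ?_⟩
      rw [map_mul, jj_simple, ← mul_assoc, ← h3, mul_assoc, (cs M).simple_mul_simple_self, mul_one]

theorem geo_pos_of {v : M.Group} (hv : Tred M T v) {u : (subM M T).Group} {t : T}
    (h : 0 ≤ geo (cs M) v (geo (cs M) (jj M T u) (ee t.1))) :
    0 ≤ geo (ct M T) u (ee t) := by
  rcases (ct M T).length_mul_simple u t with h1 | h1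
  · exact (geo_nonneg_iff (ct M T) u t).2 (by omega)
  · exfalso
    have h2 : geo (ct M T) u (ee t) ≤ 0 := (geo_nonpos_iff (ct M T) u t).2 (by omega)
    have h3 := geo_EE_nonneg M T hv (x := - geo (ct M T) u (ee t)) (by simpa using h2)
    rw [map_neg, ← geo_jj, EE_ee, map_neg] at h3
    have h4 := le_antisymm (neg_nonneg.1 h3) h
    rw [← Module.End.mul_apply, ← map_mul] at h4
    exact geo_ee_ne_zero (cs M) _ _ h4

theorem tred_unique {v v' : M.Group} (hv : Tred M T v) (hv' : Tred M T v')
    {u : (subM M T).Group} (h : v = v' * jj M T u) : u = 1 := by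
  refine eq_one_of_geo (ct M T) u fun t => ?_
  refine geo_pos_of M T hv' ?_
  rw [← Module.End.mul_apply, ← map_mul, ← h]
  exact hv t

theorem jj_inj : Function.Injective (jj M T) := by
  rw [injective_iff_map_eq_one]
  intro u hu
  refine tred_unique M T (tred_one M T) (tred_one M T) (u := u) ?_
  rw [hu, mul_one]

/-- the cosets of the parabolic subgroup -/
abbrev Om : Type := M.Group ⧸ (jj M T).range

omit [Fintype T] in
theorem exists_rep (c : Om M T) : ∃ v : M.Group, Tred M T v ∧ (QuotientGroup.mk v : Om M T) = c := by
  obtain ⟨v, rfl⟩ := QuotientGroup.mk_surjective c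
  obtain ⟨v', u, h1, h2⟩ := exists_tred M T v
  refine ⟨v', h1, ?_⟩
  rw [QuotientGroup.eq, h2]
  exact ⟨u, by group⟩

/-- the element of minimal length in the coset -/
noncomputable def rep (c : Om M T) : M.Group := (exists_rep M T c).choose

omit [Fintype T] in
theorem rep_tred (c : Om M T) : Tred M T (rep M T c) := (exists_rep M T c).choose_spec.1

omit [Fintype T] in
theorem rep_mk (c : Om M T) : (QuotientGroup.mk (rep M T c) : Om M T) = c :=
  (exists_rep M T c).choose_spec.2

theorem rep_eq {v : M.Group} (hv : Tred M T v) : rep M T (QuotientGroup.mk v) = v := by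
  have h1 := rep_mk M T (QuotientGroup.mk v)
  rw [QuotientGroup.eq] at h1
  obtain ⟨u, hu⟩ := h1
  have h2 : v = rep M T (QuotientGroup.mk v) * jj M T u := by rw [hu]; group
  have h3 := tred_unique M T hv (rep_tred M T _) h2
  rw [h3, map_one, mul_one] at h2
  exact h2.symm

open Classical in
/-- the label written by the generator `s` at the coset `c` -/
noncomputable def labw (s : B) (c : Om M T) : List T :=
  if h : ∃ t : T, geo (cs M) (rep M T c) (ee t.1) = ee s then [h.choose] else []

omit [Fintype T] in
theorem conj_of_geo {v : M.Group} {t s : B} (h : geo (cs M) v (ee t) = ee s) :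
    v * (cs M).simple t = (cs M).simple s * v := by
  have h1 : v * (cs M).simple t * v⁻¹ = (cs M).simple s := by
    apply geo_injective (cs M)
    apply LinearMap.ext
    intro x
    rw [geo_conj_simple, h, geo_simple, sg_apply, bil_ee_left]
  rw [← h1]
  group

theorem step (s : B) (c : Om M T) : (cs M).simple s * rep M T c =
    rep M T ((cs M).simple s • c) * (jj M T ((ct M T).wordProd (labw M T s c)))⁻¹ := by
  have hmk : ((cs M).simple s • c : Om M T) = QuotientGroup.mk ((cs M).simple s * rep M T c) := by
    conv_lhs => rw [← rep_mk M T c]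
    rfl
  unfold labw
  by_cases h : ∃ t : T, geo (cs M) (rep M T c) (ee t.1) = ee s
  · rw [dif_pos h]
    have h1 := conj_of_geo M h.choose_spec
    have h2 : ((cs M).simple s • c : Om M T) = c := by
      rw [hmk, ← h1]
      conv_rhs => rw [← rep_mk M T c]
      rw [QuotientGroup.eq]
      refine ⟨((ct M T).simple h.choose)⁻¹, ?_⟩
      rw [map_inv, jj_simple]
      group
    rw [h2, CoxeterSystem.wordProd_singleton, jj_simple, ← h1, CoxeterSystem.inv_simple]
  · rw [dif_neg h, CoxeterSystem.wordProd_nil, map_one, inv_one, mul_one, hmk, rep_eq]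
    intro t
    rw [map_mul, Module.End.mul_apply]
    have hr : IsRt (cs M) (geo (cs M) (rep M T c) (ee t.1)) := (isRt_ee (cs M) t.1).geo _
    rcases (hr.geo ((cs M).simple s)).cases with h1 | h1
    · exact h1
    · exact absurd ⟨t, PR.eq_ee (cs := cs M) ⟨hr, rep_tred M T c t⟩ h1⟩ h

/-- the word over `T` written by a word, starting at the coset `c` -/
noncomputable def lw : List B → Om M T → List T
  | [], _ => []
  | s :: ω, c => labw M T s c ++ lw ω ((cs M).simple s • c)

theorem path (ω : List B) : ∀ c : Om M T, ((cs M).wordProd ω)⁻¹ * rep M T c =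
    rep M T (((cs M).wordProd ω)⁻¹ • c) * (jj M T ((ct M T).wordProd (lw M T ω c)))⁻¹ := by
  induction ω with
  | nil =>
    intro c
    simp [lw]
  | cons s ω ih =>
    intro c
    rw [CoxeterSystem.wordProd_cons, mul_inv_rev, CoxeterSystem.inv_simple, mul_assoc, step,
      ← mul_assoc, ih, lw, CoxeterSystem.wordProd_append, map_mul, mul_inv_rev, smul_smul,
      mul_assoc]

theorem lw_append (ω ω' : List B) : ∀ c : Om M T,
    lw M T (ω ++ ω') c = lw M T ω c ++ lw M T ω' (((cs M).wordProd ω)⁻¹ • c) := by
  induction ω with
  | nil =>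
    intro c
    simp [lw]
  | cons s ω ih =>
    intro c
    rw [List.cons_append, lw, ih, lw, List.append_assoc, smul_smul, CoxeterSystem.wordProd_cons,
      mul_inv_rev, CoxeterSystem.inv_simple]

theorem lw_reduced (ω : List B) (hω : (cs M).IsReduced ω) (c : Om M T) :
    (ct M T).IsReduced (lw M T ω c) := by
  induction ω using List.reverseRecOn with
  | nil =>
    show (ct M T).IsReduced []
    unfold CoxeterSystem.IsReduced
    simp
  | append_singleton ω s ih =>
    have hred : (cs M).IsReduced ω := by
      have := hω.take ω.length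
      simpa using this
    have h1 := ih hred
    rw [lw_append]
    have hl : lw M T [s] (((cs M).wordProd ω)⁻¹ • c) = labw M T s (((cs M).wordProd ω)⁻¹ • c) := by
      rw [lw, lw, List.append_nil]
    rw [hl]
    unfold labw
    by_cases h : ∃ t : T, geo (cs M) (rep M T (((cs M).wordProd ω)⁻¹ • c)) (ee t.1) = ee s
    · rw [dif_pos h]
      set t := h.choose with ht
      have h2 : geo (cs M) (rep M T (((cs M).wordProd ω)⁻¹ • c)) (ee t.1) = ee s := h.choose_spec
      have h3 : (cs M).length ((cs M).wordProd ω) <
          (cs M).length ((cs M).wordProd ω * (cs M).simple s) := by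
        have e1 := hω.eq
        have e2 := hred.eq
        rw [CoxeterSystem.wordProd_append, CoxeterSystem.wordProd_singleton,
          List.length_append, List.length_singleton] at e1
        omega
      rw [← geo_nonneg_iff] at h3
      have h4 := path M T ω c
      have h5 : rep M T (((cs M).wordProd ω)⁻¹ • c) =
          ((cs M).wordProd ω)⁻¹ * rep M T c * jj M T ((ct M T).wordProd (lw M T ω c)) := by
        rw [h4]
        group
      have h6 : geo (cs M) ((cs M).wordProd ω) (ee s) =
          geo (cs M) (rep M T c) (geo (cs M) (jj M T ((ct M T).wordProd (lw M T ω c))) (ee t.1)) := by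
        rw [← h2, h5, ← Module.End.mul_apply, ← map_mul, ← Module.End.mul_apply, ← map_mul]
        congr 2
        group
      rw [h6] at h3
      have h7 := geo_pos_of M T (rep_tred M T c) h3
      rw [geo_nonneg_iff] at h7
      unfold CoxeterSystem.IsReduced
      rw [CoxeterSystem.wordProd_append, CoxeterSystem.wordProd_singleton, List.length_append,
        List.length_singleton, ← h1.eq]
      rcases (ct M T).length_mul_simple ((ct M T).wordProd (lw M T ω c)) t with h8 | h8 <;> omega
    · rw [dif_neg h, List.append_nil]
      exact h1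

theorem lw_eq {ω ω' : List B} (hω : (cs M).IsReduced ω) (hω' : (cs M).IsReduced ω')
    (h : (cs M).wordProd ω = (cs M).wordProd ω') (c : Om M T) :
    ((lw M T ω c).map (Artin.gen (subM M T))).prod =
      ((lw M T ω' c).map (Artin.gen (subM M T))).prod := by
  have h1 := path M T ω c
  have h2 := path M T ω' c
  rw [h, h2] at h1
  have h3 := jj_inj M T (inv_injective (mul_left_cancel h1))
  rw [← sec_eq (ct M T) _ (lw_reduced M T ω hω c), ← sec_eq (ct M T) _ (lw_reduced M T ω' hω' c),
    h3]

end Pool.Agent.R665.Art
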