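import Pool.Agent.R665.Art.Inf
import Pool.Agent.R779.FJ.HaloC
import Pool.Agent.Y529.FJ.Ext

/-!
# Extensions by Artin groups
-/

set_option autoImplicit false

namespace Pool.Agent.R665.Art

open Pool.Agent.Helper741 Pool.Agent.Y110.FJ Pool.Agent.R779.FJ
open Pool.Agent.Y462.SS (Closed)

section hm

variable {S T : Type} {M₁ : CoxeterMatrix S} {M₂ : CoxeterMatrix T}

/-- the homomorphism of Artin groups for a map which preserves the labels -/
def hmA (f : S → T) (h : ∀ i j, M₂ (f i) (f j) = M₁ i j) : Artin M₁ →* Artin M₂ :=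
  Artin.lift (fun s => Artin.gen M₂ (f s)) (fun i j => by
    rw [← h]
    exact Artin.rel _ _)

theorem hmA_gen (f : S → T) (h : ∀ i j, M₂ (f i) (f j) = M₁ i j) (s : S) :
    hmA f h (Artin.gen M₁ s) = Artin.gen M₂ (f s) := Artin.lift_gen _ _ s

/-- isomorphic Coxeter matrices have isomorphic Artin groups -/
def eqvA (e : S ≃ T) (h : ∀ i j, M₂ (e i) (e j) = M₁ i j) : Artin M₁ ≃* Artin M₂ :=
  MonoidHom.toMulEquiv (hmA e h)
    (hmA e.symm (fun i j => by
      rw [← h, e.apply_symm_apply, e.apply_symm_apply]))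
    (by
      apply Artin.hom_ext
      intro s
      rw [MonoidHom.comp_apply, hmA_gen, hmA_gen, e.symm_apply_apply]
      rfl)
    (by
      apply Artin.hom_ext
      intro s
      rw [MonoidHom.comp_apply, hmA_gen, hmA_gen, e.apply_symm_apply]
      rfl)

theorem eqvA_gen (e : S ≃ T) (h : ∀ i j, M₂ (e i) (e j) = M₁ i j) (s : S) :
    eqvA e h (Artin.gen M₁ s) = Artin.gen M₂ (e s) := hmA_gen e h s

theorem hmA_inj_fin [Finite T] (f : S → T) (hf : Function.Injective f)
    (h : ∀ i j, M₂ (f i) (f j) = M₁ i j) : Function.Injective (hmA f h) := by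
  classical
  have : Fintype T := Fintype.ofFinite T
  have h1 : hmA f h = (incl M₂ (Set.range f)).comp
      (eqvA (M₂ := subM M₂ (Set.range f)) (Equiv.ofInjective f hf) (fun i j => h i j)).toMonoidHom := by
    apply Artin.hom_ext
    intro s
    show _ = incl M₂ (Set.range f) (eqvA (M₂ := subM M₂ (Set.range f)) (Equiv.ofInjective f hf)
      (fun i j => h i j) (Artin.gen M₁ s))
    rw [hmA_gen]
    exact ((congrArg (incl M₂ (Set.range f)) (eqvA_gen (M₁ := M₁) (M₂ := subM M₂ (Set.range f))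
      (Equiv.ofInjective f hf) (fun i j => h i j) s)).trans
        (incl_gen M₂ (Set.range f) (Equiv.ofInjective f hf s))).symm
  rw [h1]
  exact (incl_inj M₂ (Set.range f)).comp (MulEquiv.injective _)

theorem exists_fin (M : CoxeterMatrix S) (y : Artin M) :
    ∃ (i : Finset S) (x : AF M i), incl M (i : Set S) x = y := by
  classical
  refine Artin.induction (p := fun y => ∃ (i : Finset S) (x : AF M i),
      incl M (i : Set S) x = y) ?_ ?_ ?_ ?_ y
  · exact ⟨∅, 1, map_one _⟩
  · intro b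
    exact ⟨{b}, Artin.gen _ ⟨b, by simp⟩, incl_gen M _ _⟩
  · rintro _ _ ⟨i, x, rfl⟩ ⟨j, y, rfl⟩
    refine ⟨i ∪ j, fm M Finset.subset_union_left x * fm M Finset.subset_union_right y, ?_⟩
    rw [map_mul, incl_fm, incl_fm]
  · rintro _ ⟨i, x, rfl⟩
    exact ⟨i, x⁻¹, map_inv _ _⟩

theorem exists_kill (M : CoxeterMatrix S) (i : Finset S) (x : AF M i)
    (hx : incl M (i : Set S) x = 1) : ∃ (k : Finset S) (h : i ≤ k), fm M h x = 1 := by
  have h1 : toLi M i x = toLi M i 1 := by
    rw [← ofA_incl, hx, map_one, map_one]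
  obtain ⟨k, h2, h3, h4⟩ := Quotient.exact h1
  refine ⟨k, h2, ?_⟩
  have h5 : fm M h2 x = fm M h3 1 := h4
  rw [h5, map_one]

theorem hmA_inj (f : S → T) (hf : Function.Injective f)
    (h : ∀ i j, M₂ (f i) (f j) = M₁ i j) : Function.Injective (hmA f h) := by
  classical
  rw [injective_iff_map_eq_one]
  intro x hx
  obtain ⟨i, x, rfl⟩ := exists_fin M₁ x
  let f' : ((i : Set S) : Type) → (((i.image f : Finset T) : Set T) : Type) :=
    fun s => ⟨f s.1, by
      rw [Finset.mem_coe, Finset.mem_image]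
      exact ⟨s.1, s.2, rfl⟩⟩
  have h1 : (hmA f h).comp (incl M₁ (i : Set S)) = (incl M₂ ((i.image f : Finset T) : Set T)).comp
      (hmA (M₁ := subM M₁ (i : Set S)) (M₂ := subM M₂ ((i.image f : Finset T) : Set T)) f'
        (fun a b => h a.1 b.1)) := by
    apply Artin.hom_ext
    intro s
    rw [MonoidHom.comp_apply, MonoidHom.comp_apply, incl_gen, hmA_gen]
    exact ((congrArg (incl M₂ ((i.image f : Finset T) : Set T))
      (hmA_gen (M₁ := subM M₁ (i : Set S)) (M₂ := subM M₂ ((i.image f : Finset T) : Set T)) f'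
        (fun a b => h a.1 b.1) s)).trans (incl_gen M₂ _ (f' s))).symm
  have h2 := DFunLike.congr_fun h1 x
  rw [MonoidHom.comp_apply, MonoidHom.comp_apply, hx] at h2
  obtain ⟨k, hk, h3⟩ := exists_kill M₂ _ _ h2.symm
  let f'' : ((i : Set S) : Type) → ((k : Set T) : Type) := fun s => ⟨f s.1, hk (f' s).2⟩
  have h4 : (fm M₂ hk).comp (hmA (M₁ := subM M₁ (i : Set S))
      (M₂ := subM M₂ ((i.image f : Finset T) : Set T)) f' (fun a b => h a.1 b.1)) =
      hmA (M₁ := subM M₁ (i : Set S)) (M₂ := subM M₂ (k : Set T)) f'' (fun a b => h a.1 b.1) := by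
    apply Artin.hom_ext
    intro s
    rw [MonoidHom.comp_apply]
    exact ((congrArg (fm M₂ hk)
      (hmA_gen (M₁ := subM M₁ (i : Set S)) (M₂ := subM M₂ ((i.image f : Finset T) : Set T)) f'
        (fun a b => h a.1 b.1) s)).trans (fm_gen M₂ hk (f' s))).trans
      (hmA_gen (M₁ := subM M₁ (i : Set S)) (M₂ := subM M₂ (k : Set T)) f''
        (fun a b => h a.1 b.1) s).symm
  have h5 := DFunLike.congr_fun h4 x
  rw [MonoidHom.comp_apply, h3] at h5
  have h6 : x = 1 := by
    refine hmA_inj_fin (M₁ := subM M₁ (i : Set S)) (M₂ := subM M₂ (k : Set T)) f'' ?_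
      (fun a b => h a.1 b.1) (h5.symm.trans (map_one _).symm)
    intro a b hab
    exact Subtype.ext (hf (congrArg Subtype.val hab))
  rw [h6, map_one]

end hm

open Classical in
/-- the Coxeter matrix of a labelling -/
noncomputable def cm {S : Type} (m : S → S → ℕ) : CoxeterMatrix S where
  M := Matrix.of fun x y => if x = y then 1 else if m x y = m y x ∧ m x y ≠ 1 then m x y else 0
  isSymm := by
    ext x y
    simp only [Matrix.transpose_apply, Matrix.of_apply]
    by_cases h : x = y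
    · rw [if_pos h, if_pos h.symm]
    · rw [if_neg h, if_neg (Ne.symm h)]
      by_cases h1 : m x y = m y x ∧ m x y ≠ 1
      · rw [if_pos h1, if_pos ⟨h1.1.symm, h1.1 ▸ h1.2⟩, h1.1]
      · rw [if_neg h1, if_neg (fun h2 : m y x = m x y ∧ m y x ≠ 1 =>
          h1 ⟨h2.1.symm, h2.1 ▸ h2.2⟩)]
  diagonal x := by simp
  off_diagonal x y h := by
    simp only [Matrix.of_apply]
    rw [if_neg h]
    split_ifs with h1
    · exact h1.2
    · exact zero_ne_one

theorem cm_self {S : Type} (m : S → S → ℕ) (x : S) : cm m x x = 1 := (cm m).diagonal x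

theorem cm_ne {S : Type} (m : S → S → ℕ) {x y : S} (h : x ≠ y) (hs : m x y = m y x)
    (h1 : m x y ≠ 1) : cm m x y = m x y := by
  classical
  show (if x = y then 1 else if m x y = m y x ∧ m x y ≠ 1 then m x y else 0) = _
  rw [if_neg h, if_pos ⟨hs, h1⟩]

theorem cm_zero {S : Type} (m : S → S → ℕ) {x y : S} (h : cm m x y ≠ 0) (hne : x ≠ y) :
    m x y ≠ 0 := by
  classical
  intro h0
  apply h
  show (if x = y then 1 else if m x y = m y x ∧ m x y ≠ 1 then m x y else 0) = _
  rw [if_neg hne]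
  split_ifs
  · exact h0
  · rfl

theorem cm_emb {S T : Type} {m : S → S → ℕ} {n : T → T → ℕ} (f : S → T) (hf : Emb m n f)
    (x y : S) : cm n (f x) (f y) = cm m x y := by
  classical
  by_cases h : x = y
  · subst h
    rw [cm_self, cm_self]
  · show (if f x = f y then 1 else if n (f x) (f y) = n (f y) (f x) ∧ n (f x) (f y) ≠ 1 then
      n (f x) (f y) else 0) = (if x = y then 1 else if m x y = m y x ∧ m x y ≠ 1 then m x y else 0)
    rw [if_neg (fun h' => h (hf.1 h')), if_neg h, hf.2, hf.2]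

theorem cm_cox {S : Type} (M : CoxeterMatrix S) (x y : S) : cm (fun x y => M x y) x y = M x y := by
  by_cases h : x = y
  · subst h
    rw [cm_self, M.diagonal]
  · exact cm_ne _ h (M.symmetric x y) (M.off_diagonal x y h)

/-- Artin groups as a halo -/
noncomputable def haloA : Halo ℕ where
  obj _ m := Artin (cm m)
  grp _ m := inferInstanceAs (Group (Artin (cm m)))
  map f hf := hmA f (cm_emb f hf)
  inj f hf := hmA_inj f hf.1 (cm_emb f hf)
  map_id := by
    intro S m x
    have h1 : hmA (fun x => x) (cm_emb _ (Emb.id m)) = MonoidHom.id (Artin (cm m)) := by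
      apply Artin.hom_ext
      intro v
      rw [hmA_gen]
      rfl
    exact DFunLike.congr_fun h1 x
  map_comp := by
    intro S T U m n k f g hf hg x
    have h1 : (hmA g (cm_emb g hg)).comp (hmA f (cm_emb f hf)) =
        hmA (g ∘ f) (cm_emb (g ∘ f) (hg.comp hf)) := by
      apply Artin.hom_ext
      intro v
      rw [MonoidHom.comp_apply, hmA_gen, hmA_gen, hmA_gen]
      rfl
    exact DFunLike.congr_fun h1 x
  fin := by
    intro S m x
    obtain ⟨A, y, rfl⟩ := exists_fin (cm m) x
    have hlab : ∀ i j : ((A : Set S) : Type), cm (rs m (A : Set S)) i j = cm m i.1 j.1 :=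
      fun i j => (cm_emb Subtype.val (emb_val m (A : Set S)) i j).symm
    refine ⟨(A : Set S), A.finite_toSet, hmA (M₁ := subM (cm m) (A : Set S))
      (M₂ := cm (rs m (A : Set S))) (fun a => a) hlab y, ?_⟩
    have h1 : (hmA Subtype.val (cm_emb Subtype.val (emb_val m (A : Set S)))).comp
        (hmA (M₁ := subM (cm m) (A : Set S)) (M₂ := cm (rs m (A : Set S))) (fun a => a) hlab) =
        incl (cm m) (A : Set S) := by
      apply Artin.hom_ext
      intro v
      rw [MonoidHom.comp_apply, incl_gen]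
      exact (congrArg (hmA Subtype.val (cm_emb Subtype.val (emb_val m (A : Set S))))
        (hmA_gen (M₁ := subM (cm m) (A : Set S)) (M₂ := cm (rs m (A : Set S))) (fun a => a)
          hlab v)).trans (hmA_gen _ _ v)
    exact DFunLike.congr_fun h1 y

/-- **extensions by Artin groups** -/
theorem art_ext {C : ∀ (G : Type) [Group G], Prop} (hC : ClosedE C)
    (hW : ∀ (B : Type) [Finite B] (M : CoxeterMatrix B), C M.Group) {V : Type}
    (M : CoxeterMatrix V)
    (h : ∀ T : Finset V, (∀ i ∈ T, ∀ j ∈ T, M i j ≠ 0) → C (Artin (subM M (T : Set V))))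
    (G : Type) [Group G] (N : Subgroup G) [N.Normal] (e : Artin M ≃* N) (hQ : C (G ⧸ N))
    (hact : ∀ g : G, ∃ (τ : Equiv.Perm V) (n : G), n ∈ N ∧ (∀ v w, M (τ v) (τ w) = M v w) ∧
      ∀ v : V, g * (e (Artin.gen M v) : G) * g⁻¹ = n * (e (Artin.gen M (τ v)) : G) * n⁻¹) :
    C G := by
  classical
  have hperm : S_PERM := Pool.Agent.Y961.FJ.t_perm Pool.Agent.Y529.FJ.t_ext
  have hcrit : S_CRIT := t_crit Pool.Agent.Y529.FJ.t_ext hperm
  let ℓ : V → V → ℕ := fun x y => M x y
  let e0 : Artin (cm ℓ) ≃* Artin M := eqvA (Equiv.refl V) (fun i j => (cm_cox M i j).symm)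
  have he0 : ∀ v, e0 (Artin.gen (cm ℓ) v) = Artin.gen M v := fun v =>
    eqvA_gen (M₁ := cm ℓ) (M₂ := M) (Equiv.refl V) (fun i j => (cm_cox M i j).symm) v
  refine t_haloC hcrit C hC haloA ℓ ?_ G N (e0.trans e) hQ ?_
  · intro R hR D f hf hfl
    obtain ⟨T, hT, m', ι, θ, hm', hι, hιm, hθ, hιθ, hK⟩ := eppaC 0 R hR.to_subtype (rs ℓ R)
      (fun x y => M.symmetric x.1 y.1) D f hf hfl
    refine ⟨T, hT, m', ι, θ, hι, hιm, hθ, hιθ, ?_⟩
    show C (Artin (cm m'))
    have hθt : ∀ (t : ℕ) (u v : T), m' (θ^[t] u) (θ^[t] v) = m' u v := by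
      intro t u v
      induction t with
      | zero => rfl
      | succ t ih => rw [Function.iterate_succ_apply', Function.iterate_succ_apply', hθ, ih]
    refine artin_mem hC hW (cm m') fun U hU => ?_
    obtain ⟨t, ht⟩ := hK (U : Set T) (fun u hu w hw huw => cm_zero m' (hU u hu w hw) huw)
    choose x hx using ht
    let j : ↥(U : Set T) → V := fun u => (x u.1 u.2 : V)
    have hj : Function.Injective j := by
      intro u v huv
      have e1 : x u.1 u.2 = x v.1 v.2 := Subtype.ext huv
      have e2 : θ^[t] u.1 = θ^[t] v.1 := by rw [hx u.1 u.2, hx v.1 v.2, e1]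
      exact Subtype.ext (θ.injective.iterate t e2)
    have hlab : ∀ u v : ↥(U : Set T), M (j u) (j v) = m' u v := by
      intro u v
      rw [← hθt t u v, hx u.1 u.2, hx v.1 v.2, hιm]
    have hlab2 : ∀ u v : ↥(U : Set T), M (j u) (j v) = cm m' u v := by
      intro u v
      by_cases huv : u = v
      · subst huv
        rw [cm_self, M.diagonal]
      · rw [cm_ne m' (fun h' => huv (Subtype.ext h')) (hm' _ _), hlab]
        rw [← hlab]
        exact M.off_diagonal _ _ (fun h' => huv (hj h'))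
    have hfin : (Set.range j).Finite := Set.finite_range j
    have h2 := h hfin.toFinset (by
      intro a ha b hb
      rw [Set.Finite.mem_toFinset] at ha hb
      obtain ⟨u, rfl⟩ := ha
      obtain ⟨v, rfl⟩ := hb
      rw [hlab2 u v]
      exact hU u.1 u.2 v.1 v.2)
    exact C_equiv hC.base (M₁ := subM (cm m') (U : Set T))
      (M₂ := subM M ((hfin.toFinset : Finset V) : Set V))
      ((Equiv.ofInjective j hj).trans (Equiv.setCongr hfin.coe_toFinset.symm))
      (fun u v => hlab2 u v) h2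
  · intro g
    obtain ⟨τ, n, hn, hτ, h1⟩ := hact g
    have hτ' : Emb ℓ ℓ τ := ⟨τ.injective, hτ⟩
    refine ⟨τ, hτ', ⟨n, hn⟩, fun x => ?_⟩
    have h2 : (MulAut.conj g).toMonoidHom.comp (N.subtype.comp (e0.trans e).toMonoidHom) =
        (MulAut.conj n).toMonoidHom.comp ((N.subtype.comp (e0.trans e).toMonoidHom).comp
          (hmA τ (cm_emb τ hτ'))) := by
      apply Artin.hom_ext
      intro v
      show g * (e (e0 (Artin.gen (cm ℓ) v)) : G) * g⁻¹ =
        n * (e (e0 (hmA τ (cm_emb τ hτ') (Artin.gen (cm ℓ) v))) : G) * n⁻¹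
      rw [hmA_gen, he0, he0]
      exact h1 v
    exact DFunLike.congr_fun h2 x

end Pool.Agent.R665.Art
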