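import Pool.Agent.R665.Art.Ext

/-!
# Artin groups: statements with parabolic subgroups
-/

set_option autoImplicit false

namespace Pool.Agent.R665.Art

open Pool.Agent.Helper741 Pool.Agent.Y110.FJ Pool.Agent.R630.FJ
open Pool.Agent.Y462.SS (Closed)

variable {V : Type} (M : CoxeterMatrix V)

theorem incl_inj' (T : Set V) : Function.Injective (incl M T) :=
  hmA_inj (M₁ := subM M T) (M₂ := M) Subtype.val Subtype.val_injective (fun _ _ => rfl)

theorem C_par {C : ∀ (G : Type) [Group G], Prop} (hC : Closed C) (T : Set V) :
    C ↥(Subgroup.closure (Artin.gen M '' T)) ↔ C (Artin (subM M T)) := by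
  rw [← range_incl]
  constructor
  · intro h
    exact hC.of_injective _ _ (MonoidHom.ofInjective (incl_inj' M T)).toMonoidHom
      (MulEquiv.injective _) h
  · intro h
    exact hC.of_injective _ _ (MonoidHom.ofInjective (incl_inj' M T)).symm.toMonoidHom
      (MulEquiv.injective _) h

theorem artin_iff {C : ∀ (G : Type) [Group G], Prop} (hC : ClosedE C)
    (hW : ∀ (B : Type) [Finite B] (M : CoxeterMatrix B), C M.Group) :
    C (Artin M) ↔ ∀ T : Finset V, (∀ i ∈ T, ∀ j ∈ T, M i j ≠ 0) →
      C ↥(Subgroup.closure (Artin.gen M '' (T : Set V))) := by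
  constructor
  · intro h T _
    exact hC.base.of_injective _ _ (Subgroup.subtype _) Subtype.val_injective h
  · intro h
    exact artin_mem hC hW M fun T hT => (C_par M hC.base _).1 (h T hT)

/-- a homomorphism to a group in `C` which is injective on the parabolic subgroup -/
theorem exists_hom {C : ∀ (G : Type) [Group G], Prop} (hC : ClosedE C)
    (hW : ∀ (B : Type) [Finite B] (M : CoxeterMatrix B), C M.Group) [Finite V] (T : Set V)
    (hT : C ↥(Subgroup.closure (Artin.gen M '' T))) :
    ∃ (P : Type) (_ : Group P) (f : Artin M →* P), C P ∧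
      ∀ k ∈ Subgroup.closure (Artin.gen M '' T), f k = 1 → k = 1 := by
  classical
  have : Fintype V := Fintype.ofFinite V
  refine ⟨_, inferInstance, Phi M T, fv_mem (rho M T) hC ((C_par M hC.base T).1 hT) (hW V M), ?_⟩
  intro k hk h
  rw [← range_incl] at hk
  exact Phi_inj M T k hk h

end Pool.Agent.R665.Art
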