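import Pool.Agent.R665.Art.Main

/-!
# Artin groups with infinitely many generators
-/

set_option autoImplicit false

namespace Pool.Agent.R665.Art

open Pool.Agent.Helper741 Pool.Agent.Y110.FJ
open Pool.Agent.Y462.SS (Closed)

section colim

variable {B : Type} (M : CoxeterMatrix B)

/-- the Artin group of a finite set of generators -/
abbrev AF (T : Finset B) : Type := Artin (subM M (T : Set B))

/-- the map for an inclusion -/
def fm {S T : Finset B} (h : S ≤ T) : AF M S →* AF M T :=
  Artin.lift (fun t => Artin.gen (subM M (T : Set B)) ⟨t.1, h t.2⟩)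
    (fun i j => Artin.rel (M := subM M (T : Set B)) ⟨i.1, h i.2⟩ ⟨j.1, h j.2⟩)

theorem fm_gen {S T : Finset B} (h : S ≤ T) (t : (S : Set B)) :
    fm M h (Artin.gen _ t) = Artin.gen (subM M (T : Set B)) ⟨t.1, h t.2⟩ := Artin.lift_gen _ _ t

theorem fm_self {S : Finset B} (h : S ≤ S) (x : AF M S) : fm M h x = x := by
  have h1 : fm M h = MonoidHom.id _ := by
    apply Artin.hom_ext
    intro t
    exact fm_gen M h t
  rw [h1]
  rfl

theorem fm_fm {S T U : Finset B} (h : S ≤ T) (h' : T ≤ U) (x : AF M S) :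
    fm M h' (fm M h x) = fm M (h.trans h') x := by
  have h1 : (fm M h').comp (fm M h) = fm M (h.trans h') := by
    apply Artin.hom_ext
    intro t
    rw [MonoidHom.comp_apply, fm_gen, fm_gen, fm_gen]
  exact DFunLike.congr_fun h1 x

theorem incl_fm {S T : Finset B} (h : S ≤ T) (x : AF M S) :
    incl M (T : Set B) (fm M h x) = incl M (S : Set B) x := by
  have h1 : (incl M (T : Set B)).comp (fm M h) = incl M (S : Set B) := by
    apply Artin.hom_ext
    intro t
    rw [MonoidHom.comp_apply, fm_gen, incl_gen, incl_gen]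
  exact DFunLike.congr_fun h1 x

instance sys : DirectedSystem (AF M) (fun i j (h : i ≤ j) => ⇑(fm M h)) where
  map_self := fun _ x => fm_self M _ x
  map_map := fun _ _ _ hij hjk x => fm_fm M hij hjk x

/-- the directed colimit -/
abbrev Li : Type := DirectLimit (AF M) (fun i j (h : i ≤ j) => fm M h)

/-- the map to the colimit -/
noncomputable def toLi (T : Finset B) : AF M T →* Li M where
  toFun x := ⟦⟨T, x⟩⟧
  map_one' := (DirectLimit.one_def T).symm
  map_mul' x y := (DirectLimit.mul_def T x y).symm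

theorem toLi_fm {S T : Finset B} (h : S ≤ T) (x : AF M S) :
    toLi M T (fm M h x) = toLi M S x := by
  refine Quotient.sound ⟨T, le_refl T, h, ?_⟩
  exact fm_self M _ _

theorem toLi_gen {S T : Finset B} (t : B) (h : t ∈ S) (h' : t ∈ T) :
    toLi M S (Artin.gen (subM M (S : Set B)) ⟨t, h⟩) =
      toLi M T (Artin.gen (subM M (T : Set B)) ⟨t, h'⟩) := by
  classical
  have h1 := toLi_fm M (S := S) (T := S ∪ T) Finset.subset_union_left
    (Artin.gen (subM M (S : Set B)) ⟨t, h⟩)
  have h2 := toLi_fm M (S := T) (T := S ∪ T) Finset.subset_union_right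
    (Artin.gen (subM M (T : Set B)) ⟨t, h'⟩)
  rw [fm_gen] at h1 h2
  rw [← h1, ← h2]

/-- the map of the Artin group to the colimit -/
noncomputable def ofA : Artin M →* Li M :=
  Artin.lift (fun b => toLi M {b} (Artin.gen _ ⟨b, by simp⟩)) (by
    classical
    intro i j
    have hi : i ∈ ({i, j} : Finset B) := by simp
    have hj : j ∈ ({i, j} : Finset B) := by simp
    rw [toLi_gen M (S := {i}) (T := {i, j}) i (by simp) hi,
      toLi_gen M (S := {j}) (T := {i, j}) j (by simp) hj, ← map_alt, ← map_alt]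
    congr 1
    exact Artin.rel (M := subM M (({i, j} : Finset B) : Set B)) ⟨i, hi⟩ ⟨j, hj⟩)

theorem ofA_incl (T : Finset B) (x : AF M T) : ofA M (incl M (T : Set B) x) = toLi M T x := by
  have h1 : (ofA M).comp (incl M (T : Set B)) = toLi M T := by
    apply Artin.hom_ext
    intro t
    rw [MonoidHom.comp_apply, incl_gen]
    unfold ofA
    rw [Artin.lift_gen]
    exact toLi_gen M t.1 _ t.2
  exact DFunLike.congr_fun h1 x

theorem colim_mem {C : ∀ (G : Type) [Group G], Prop} (hC : Closed C)
    (h : ∀ T : Finset B, C (AF M T)) : C (Artin M) := by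
  classical
  refine hC.colim (Finset B)
    (fun i j => ⟨i ∪ j, Finset.subset_union_left, Finset.subset_union_right⟩) (AF M)
    (fun i j h => fm M h) (Artin M) (fun T => incl M (T : Set B)) ?_ ?_ ?_ ?_ ?_ h
  · intro i h x
    exact fm_self M h x
  · intro i j k h h' x
    exact fm_fm M h h' x
  · intro i j h x
    exact incl_fm M h x
  · intro y
    refine Artin.induction (p := fun y => ∃ (i : Finset B) (x : AF M i),
      incl M (i : Set B) x = y) ?_ ?_ ?_ ?_ y
    · exact ⟨∅, 1, map_one _⟩
    · intro b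
      exact ⟨{b}, Artin.gen _ ⟨b, by simp⟩, incl_gen M _ _⟩
    · rintro _ _ ⟨i, x, rfl⟩ ⟨j, y, rfl⟩
      refine ⟨i ∪ j, fm M Finset.subset_union_left x * fm M Finset.subset_union_right y, ?_⟩
      rw [map_mul, incl_fm, incl_fm]
    · rintro _ ⟨i, x, rfl⟩
      exact ⟨i, x⁻¹, map_inv _ _⟩
  · intro i x hx
    have h1 : toLi M i x = toLi M i 1 := by
      rw [← ofA_incl, hx, map_one, map_one]
    obtain ⟨k, h2, h3, h4⟩ := Quotient.exact h1
    refine ⟨k, h2, ?_⟩
    have h5 : fm M h2 x = fm M h3 1 := h4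
    rw [h5, map_one]

end colim

/-- **reduction to the parabolic subgroups without label infinity** -/
theorem artin_mem {C : ∀ (G : Type) [Group G], Prop} (hC : ClosedE C)
    (hW : ∀ (B : Type) [Finite B] (M : CoxeterMatrix B), C M.Group) {B : Type}
    (M : CoxeterMatrix B)
    (h : ∀ T : Finset B, (∀ i ∈ T, ∀ j ∈ T, M i j ≠ 0) → C (Artin (subM M (T : Set B)))) :
    C (Artin M) := by
  classical
  refine colim_mem M hC.base fun T => ?_
  refine fin_mem hC hW _ (T : Set B) (subM M (T : Set B)) rfl ?_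
  intro T' hT'
  apply C_sub hC.base
  have hf : ((Subtype.val '' T' : Set B)).Finite :=
    Set.Finite.subset T.finite_toSet (by
      rintro _ ⟨t, -, rfl⟩
      exact t.2)
  obtain ⟨S, hS⟩ := hf.exists_finset_coe
  rw [← hS]
  apply h
  intro i hi j hj
  have hi' : i ∈ (Subtype.val '' T' : Set B) := by rw [← hS]; exact hi
  have hj' : j ∈ (Subtype.val '' T' : Set B) := by rw [← hS]; exact hj
  obtain ⟨i', hi1, rfl⟩ := hi'
  obtain ⟨j', hj1, rfl⟩ := hj'
  exact hT' i' hi1 j' hj1

end Pool.Agent.R665.Art
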