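import Pool.Agent.R665.Art.Phi
import Pool.Agent.R665.FJ.Am

/-!
# Artin groups in Farrell–Jones classes: reduction to the parabolic subgroups without label infinity
-/

set_option autoImplicit false

namespace Pool.Agent.R665.Art

open Pool.Agent.Helper741 CoxeterSystem Pool.Agent.R630.FJ Pool.Agent.Y110.FJ
open Pool.Agent.Y462.SS (Closed)

section general

variable {B : Type} (M : CoxeterMatrix B)

theorem range_incl (T : Set B) : (incl M T).range = Subgroup.closure (Artin.gen M '' T) := by
  rw [MonoidHom.range_eq_map, ← Artin.closure_range_gen, MonoidHom.map_closure]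
  congr 1
  ext z
  constructor
  · rintro ⟨_, ⟨t, rfl⟩, rfl⟩
    exact ⟨t.1, t.2, (incl_gen M T t).symm⟩
  · rintro ⟨t, ht, rfl⟩
    exact ⟨_, ⟨⟨t, ht⟩, rfl⟩, incl_gen M T ⟨t, ht⟩⟩

theorem gen_mem {T : Set B} {b : B} (h : b ∈ T) : Artin.gen M b ∈ (incl M T).range :=
  ⟨Artin.gen _ ⟨b, h⟩, incl_gen M T ⟨b, h⟩⟩

/-- the amalgamated product decomposition at a label infinity -/
theorem amg (x y : B) (hxy : M x y = 0) :
    Amg (incl M {b | b ≠ x}).range (incl M {b | b ≠ y}).range
      (incl M {b | b ≠ x ∧ b ≠ y}).range := by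
  classical
  have hne : x ≠ y := by
    rintro rfl
    rw [M.diagonal] at hxy
    exact one_ne_zero hxy
  have hyx : M y x = 0 := by rw [M.symmetric]; exact hxy
  refine ⟨?_, ?_, ?_, ?_⟩
  · rw [range_incl, range_incl]
    exact Subgroup.closure_mono (Set.image_mono fun b hb => hb.1)
  · rw [range_incl, range_incl]
    exact Subgroup.closure_mono (Set.image_mono fun b hb => hb.2)
  · rw [range_incl, range_incl, ← Subgroup.closure_union, ← Artin.closure_range_gen]
    congr 1
    ext z
    constructor
    · rintro (⟨b, -, rfl⟩ | ⟨b, -, rfl⟩) <;> exact ⟨b, rfl⟩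
    · rintro ⟨b, rfl⟩
      by_cases h : b = x
      · exact Or.inr ⟨b, fun h' => hne (h.symm.trans h'), rfl⟩
      · exact Or.inl ⟨b, h, rfl⟩
  · intro H _ f g hfg
    let F : B → H := fun b => if hb : b = x then
      g ⟨Artin.gen M b, gen_mem M (T := {b | b ≠ y}) (fun h' => hne (hb.symm.trans h'))⟩
      else f ⟨Artin.gen M b, gen_mem M (T := {b | b ≠ x}) hb⟩
    have hX : ∀ t : ({b | b ≠ x} : Set B), F t.1 =
        (f.comp (incl M {b | b ≠ x}).rangeRestrict) (Artin.gen _ t) := by
      intro t
      show (if hb : t.1 = x then _ else _) = _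
      rw [dif_neg t.2, MonoidHom.comp_apply]
      congr 1
    have hY : ∀ t : ({b | b ≠ y} : Set B), F t.1 =
        (g.comp (incl M {b | b ≠ y}).rangeRestrict) (Artin.gen _ t) := by
      intro t
      have h1 : (g.comp (incl M {b | b ≠ y}).rangeRestrict) (Artin.gen _ t) =
          g ⟨Artin.gen M t.1, gen_mem M (T := {b | b ≠ y}) t.2⟩ := by
        rw [MonoidHom.comp_apply]
        congr 1
      rw [h1]
      show (if hb : t.1 = x then _ else _) = _
      by_cases hb : t.1 = x
      · rw [dif_pos hb]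
      · rw [dif_neg hb]
        exact hfg _ (gen_mem M (T := {b | b ≠ x ∧ b ≠ y}) ⟨hb, t.2⟩)
    have hF : ∀ i j, alt (F i) (F j) (M i j) = alt (F j) (F i) (M i j) := by
      intro i j
      by_cases h0 : M i j = 0
      · rw [h0, alt_zero, alt_zero]
      by_cases h1 : i ≠ x ∧ j ≠ x
      · rw [hX ⟨i, h1.1⟩, hX ⟨j, h1.2⟩, ← map_alt, ← map_alt]
        congr 1
        exact Artin.rel (M := subM M {b | b ≠ x}) ⟨i, h1.1⟩ ⟨j, h1.2⟩
      · have h2 : i ≠ y ∧ j ≠ y := by
          constructor
          · rintro rfl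
            apply h1
            refine ⟨Ne.symm hne, ?_⟩
            rintro rfl
            exact h0 hyx
          · rintro rfl
            apply h1
            refine ⟨?_, Ne.symm hne⟩
            rintro rfl
            exact h0 hxy
        rw [hY ⟨i, h2.1⟩, hY ⟨j, h2.2⟩, ← map_alt, ← map_alt]
        congr 1
        exact Artin.rel (M := subM M {b | b ≠ y}) ⟨i, h2.1⟩ ⟨j, h2.2⟩
    refine ⟨Artin.lift F hF, ?_, ?_⟩
    · have h1 : (Artin.lift F hF).comp (incl M {b | b ≠ x}) =
          f.comp (incl M {b | b ≠ x}).rangeRestrict := by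
        apply Artin.hom_ext
        intro t
        rw [MonoidHom.comp_apply, incl_gen, Artin.lift_gen]
        exact hX t
      rintro ⟨_, a, rfl⟩
      exact DFunLike.congr_fun h1 a
    · have h1 : (Artin.lift F hF).comp (incl M {b | b ≠ y}) =
          g.comp (incl M {b | b ≠ y}).rangeRestrict := by
        apply Artin.hom_ext
        intro t
        rw [MonoidHom.comp_apply, incl_gen, Artin.lift_gen]
        exact hY t
      rintro ⟨_, a, rfl⟩
      exact DFunLike.congr_fun h1 a

end general

theorem C_equiv {C : ∀ (G : Type) [Group G], Prop} (hC : Closed C) {B₁ B₂ : Type}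
    {M₁ : CoxeterMatrix B₁} {M₂ : CoxeterMatrix B₂} (e : B₁ ≃ B₂)
    (h : ∀ i j, M₂ (e i) (e j) = M₁ i j) (h2 : C (Artin M₂)) : C (Artin M₁) := by
  let f : Artin M₁ →* Artin M₂ := Artin.lift (fun i => Artin.gen M₂ (e i)) (fun i j => by
    rw [← h]
    exact Artin.rel _ _)
  let g : Artin M₂ →* Artin M₁ := Artin.lift (fun i => Artin.gen M₁ (e.symm i)) (fun i j => by
    have h1 := h (e.symm i) (e.symm j)
    rw [e.apply_symm_apply, e.apply_symm_apply] at h1
    rw [h1]
    exact Artin.rel _ _)
  have hgf : g.comp f = MonoidHom.id _ := by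
    apply Artin.hom_ext
    intro i
    show g (f (Artin.gen M₁ i)) = _
    have h1 : f (Artin.gen M₁ i) = Artin.gen M₂ (e i) := Artin.lift_gen _ _ _
    have h3 : g (Artin.gen M₂ (e i)) = Artin.gen M₁ (e.symm (e i)) := Artin.lift_gen _ _ _
    rw [h1, h3, e.symm_apply_apply]
    rfl
  refine hC.of_injective _ _ f ?_ h2
  intro a b hab
  have h1 := DFunLike.congr_fun hgf a
  have h3 := DFunLike.congr_fun hgf b
  have h4 : g (f a) = g (f b) := by rw [hab]
  exact h1.symm.trans (h4.trans h3)

theorem C_sub {C : ∀ (G : Type) [Group G], Prop} (hC : Closed C) {B : Type}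
    (M : CoxeterMatrix B) (T : Set B) (T' : Set T)
    (h : C (Artin (subM M (Subtype.val '' T')))) : C (Artin (subM (subM M T) T')) :=
  C_equiv hC (Equiv.Set.image Subtype.val T' Subtype.val_injective) (fun _ _ => rfl) h

theorem fin_mem {C : ∀ (G : Type) [Group G], Prop} (hC : ClosedE C)
    (hW : ∀ (B : Type) [Finite B] (M : CoxeterMatrix B), C M.Group) (n : ℕ) :
    ∀ (B : Type) [Fintype B] (M : CoxeterMatrix B), Fintype.card B = n →
      (∀ T : Set B, (∀ i ∈ T, ∀ j ∈ T, M i j ≠ 0) → C (Artin (subM M T))) → C (Artin M) := by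
  classical
  induction n using Nat.strong_induction_on with
  | _ n ih =>
    intro B _ M hn hT
    by_cases h0 : ∀ i j, M i j ≠ 0
    · exact C_equiv hC.base (Equiv.Set.univ B).symm (fun _ _ => rfl)
        (hT Set.univ (fun i _ j _ => h0 i j))
    · push Not at h0
      obtain ⟨x, y, hxy⟩ := h0
      have key : ∀ (b : B) (X : Set B), b ∉ X → C (Artin (subM M X)) := by
        intro b X hb
        refine ih (Fintype.card X) ?_ X (subM M X) rfl ?_
        · rw [← hn]
          exact Fintype.card_subtype_lt hb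
        · intro T' hT'
          apply C_sub hC.base
          apply hT
          rintro _ ⟨i, hi, rfl⟩ _ ⟨j, hj, rfl⟩
          exact hT' i hi j hj
      have hX := key x {b | b ≠ x} (fun h => h rfl)
      have hY := key y {b | b ≠ y} (fun h => h rfl)
      have hK := key x {b | b ≠ x ∧ b ≠ y} (fun h => h.1 rfl)
      have hr : ∀ X : Set B, C (Artin (subM M X)) → C ↥(incl M X).range := by
        intro X h
        exact hC.base.of_injective _ _
          (MonoidHom.ofInjective (incl_inj M X)).symm.toMonoidHom (MulEquiv.injective _) h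
      exact Pool.Agent.R665.FJ.am hC _ _ _ (hr _ hX) (hr _ hY)
        (fv_mem (rho M {b | b ≠ x ∧ b ≠ y}) hC hK (hW B M)) (amg M x y hxy)
        (Phi M {b | b ≠ x ∧ b ≠ y}) (fun k hk h => Phi_inj M _ k hk h)

end Pool.Agent.R665.Art
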