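import Pool.Agent.R665.Art.Cox
import Pool.Agent.R630.FJ.Fv

/-!
# A homomorphism of an Artin group which is injective on a standard parabolic subgroup

The homomorphism goes to the finite-valued functions on the cosets of the Coxeter group modulo the
parabolic subgroup with values in the Artin group of `T`, extended by the Coxeter group.
-/

set_option autoImplicit false

namespace Pool.Agent.R665.Art

open Pool.Agent.Helper741 CoxeterSystem Pool.Agent.R630.FJ

variable {B : Type} [Fintype B] [DecidableEq B] (M : CoxeterMatrix B) (T : Set B) [Fintype T]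

/-- the action on the cosets -/
noncomputable abbrev rho : M.Group →* Equiv.Perm (Om M T) := MulAction.toPermHom M.Group (Om M T)

/-- the image of a generator -/
noncomputable def ph (s : B) : FW (rho M T) (Artin (subM M T)) :=
  ⟨fun c => ((labw M T s c).map (Artin.gen (subM M T))).prod, (cs M).simple s⟩

omit [Fintype T] in
theorem rho_inv (g : M.Group) (c : Om M T) : (rho M T g)⁻¹ c = g⁻¹ • c := by
  rw [← map_inv]
  rfl

theorem ph_word (ω : List B) : ((ω.map (ph M T)).prod).right = (cs M).wordProd ω ∧
    ∀ c, ((ω.map (ph M T)).prod).left c = ((lw M T ω c).map (Artin.gen (subM M T))).prod := by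
  induction ω with
  | nil => exact ⟨rfl, fun c => rfl⟩
  | cons s ω ih =>
    refine ⟨?_, fun c => ?_⟩
    · rw [List.map_cons, List.prod_cons, SemidirectProduct.mul_right, ih.1,
        CoxeterSystem.wordProd_cons]
      rfl
    · rw [List.map_cons, List.prod_cons, SemidirectProduct.mul_left, Pi.mul_apply, shAut_apply,
        ih.2, lw, List.map_append, List.prod_append, rho_inv]
      have h1 : (ph M T s).right⁻¹ = (cs M).simple s := CoxeterSystem.inv_simple _ _
      rw [h1]
      rfl

theorem ph_rel (i j : B) : alt (ph M T i) (ph M T j) (M i j) =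
    alt (ph M T j) (ph M T i) (M i j) := by
  by_cases hij : i = j
  · subst hij
    rfl
  by_cases h0 : M i j = 0
  · rw [h0, alt_zero, alt_zero]
  have r1 := isReduced_aw (cs M) hij (k := M i j) (Or.inr le_rfl)
  have r2 := isReduced_aw (cs M) (Ne.symm hij) (k := M i j)
    (Or.inr (by rw [M.symmetric j i]))
  have hw : (cs M).wordProd (aw i j (M i j)) = (cs M).wordProd (aw j i (M i j)) := by
    rw [wordProd_aw, wordProd_aw]
    exact alt_comm_of_pow ((cs M).simple_mul_simple_self i) ((cs M).simple_mul_simple_self j)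
      ((cs M).simple_mul_simple_pow i j)
  rw [← aw_prod, ← aw_prod]
  apply SemidirectProduct.ext
  · funext c
    rw [(ph_word M T _).2, (ph_word M T _).2]
    exact lw_eq M T r1 r2 hw c
  · rw [(ph_word M T _).1, (ph_word M T _).1, hw]

theorem ph_mem (s : B) : ph M T s ∈ FV (rho M T) (Artin (subM M T)) := by
  show (Set.range (ph M T s).left).Finite
  refine Set.Finite.subset (Set.Finite.insert 1 (Set.finite_range (Artin.gen (subM M T)))) ?_
  rintro _ ⟨c, rfl⟩
  show ((labw M T s c).map (Artin.gen (subM M T))).prod ∈ _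
  unfold labw
  split_ifs with h
  · right
    exact ⟨h.choose, by simp⟩
  · left
    rfl

/-- the homomorphism -/
noncomputable def Phi : Artin M →* FV (rho M T) (Artin (subM M T)) :=
  Artin.lift (fun s => ⟨ph M T s, ph_mem M T s⟩) (by
    intro i j
    apply Subtype.val_injective
    show (FV (rho M T) (Artin (subM M T))).subtype _ = (FV (rho M T) (Artin (subM M T))).subtype _
    rw [map_alt, map_alt]
    exact ph_rel M T i j)

theorem Phi_gen (s : B) : (Phi M T (Artin.gen M s)).1 = ph M T s := by
  unfold Phi
  rw [Artin.lift_gen]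

/-- the base coset -/
noncomputable abbrev c0 : Om M T := QuotientGroup.mk 1

theorem rep_c0 : rep M T (c0 M T) = 1 := rep_eq M T (tred_one M T)

theorem lab_base (t : T) : labw M T t.1 (c0 M T) = [t] := by
  have h : ∃ t' : T, geo (cs M) (rep M T (c0 M T)) (ee t'.1) = ee t.1 :=
    ⟨t, by rw [rep_c0, map_one, Module.End.one_apply]⟩
  unfold labw
  rw [dif_pos h]
  have key : ∀ t' : T, geo (cs M) (rep M T (c0 M T)) (ee t'.1) = ee t.1 → t' = t := by
    intro t' h1
    rw [rep_c0, map_one, Module.End.one_apply] at h1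
    apply Subtype.ext
    by_contra hne
    have h3 := congrFun h1 t.1
    simp [ee, Ne.symm hne] at h3
  rw [key _ h.choose_spec]

theorem Phi_incl (a : Artin (subM M T)) :
    (Phi M T (incl M T a)).1.left (c0 M T) = a ∧
      (rho M T (Phi M T (incl M T a)).1.right) (c0 M T) = c0 M T := by
  refine Artin.induction (p := fun a => (Phi M T (incl M T a)).1.left (c0 M T) = a ∧
      (rho M T (Phi M T (incl M T a)).1.right) (c0 M T) = c0 M T) ?_ ?_ ?_ ?_ a
  · rw [map_one, map_one]
    exact ⟨rfl, by
      show (rho M T 1) (c0 M T) = c0 M T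
      rw [map_one]
      rfl⟩
  · intro t
    rw [incl_gen, Phi_gen]
    refine ⟨?_, ?_⟩
    · show ((labw M T t.1 (c0 M T)).map (Artin.gen (subM M T))).prod = _
      rw [lab_base]
      simp
    · show (QuotientGroup.mk ((cs M).simple t.1 * 1) : Om M T) = QuotientGroup.mk 1
      rw [QuotientGroup.eq, mul_one, mul_one]
      exact ⟨((ct M T).simple t)⁻¹, by rw [map_inv, jj_simple]⟩
  · intro x y hx hy
    rw [map_mul, map_mul]
    have h1 : (rho M T (Phi M T (incl M T x)).1.right)⁻¹ (c0 M T) = c0 M T := by
      rw [Equiv.Perm.inv_eq_iff_eq]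
      exact hx.2.symm
    refine ⟨?_, ?_⟩
    · show ((Phi M T (incl M T x)).1 * (Phi M T (incl M T y)).1).left (c0 M T) = _
      rw [SemidirectProduct.mul_left, Pi.mul_apply, shAut_apply, h1, hx.1, hy.1]
    · show (rho M T ((Phi M T (incl M T x)).1 * (Phi M T (incl M T y)).1).right) (c0 M T) = _
      rw [SemidirectProduct.mul_right, map_mul, Equiv.Perm.mul_apply, hy.2, hx.2]
  · intro x hx
    rw [map_inv, map_inv]
    have h1 : (rho M T (Phi M T (incl M T x)).1.right)⁻¹ (c0 M T) = c0 M T := by
      rw [Equiv.Perm.inv_eq_iff_eq]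
      exact hx.2.symm
    refine ⟨?_, ?_⟩
    · show ((Phi M T (incl M T x)).1⁻¹).left (c0 M T) = _
      rw [SemidirectProduct.inv_left, shAut_apply, map_inv, inv_inv, Pi.inv_apply, hx.2, hx.1]
    · show (rho M T ((Phi M T (incl M T x)).1⁻¹).right) (c0 M T) = _
      rw [SemidirectProduct.inv_right, map_inv, h1]

theorem incl_inj : Function.Injective (incl M T) := by
  intro a b hab
  rw [← (Phi_incl M T a).1, hab, (Phi_incl M T b).1]

theorem Phi_inj (k : Artin M) (hk : k ∈ (incl M T).range) (h : Phi M T k = 1) : k = 1 := by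
  obtain ⟨a, rfl⟩ := hk
  have h1 := (Phi_incl M T a).1
  rw [h] at h1
  rw [← h1]
  show incl M T ((1 : FW (rho M T) (Artin (subM M T))).left (c0 M T)) = 1
  exact map_one _

end Pool.Agent.R665.Art
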